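import Mathlib
import Pool.Agent.P.MP_3fef46_co.H85.Bad

namespace Pool.Agent.Results.MP_3fef46_co.BoundedParts

theorem result (a b q M : ℕ) (ns : Fin q → ℕ) (I : Finset (Fin q)) (hI : I.Nonempty)
    (hM : ∀ i ∈ I, ns i ≤ M)
    (hred : I.card * (a * M + 1) ≤ a * ∑ i, ns i)
    (hblue : I.card * (b * M) + 3 * (b * ∑ i ∈ Iᶜ, ns i + 1) ≤ b * ∑ i, ns i + b * M) :
    ∃ R B : Finset (ℝ × ℝ), Disjoint R B ∧ R.card = a * ∑ i, ns i ∧ B.card = b * ∑ i, ns i ∧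
      (∀ x ∈ R ∪ B, ∀ y ∈ R ∪ B, ∀ z ∈ R ∪ B, x ≠ y → x ≠ z → y ≠ z →
        ¬ Collinear ℝ ({x, y, z} : Set (ℝ × ℝ))) ∧
      ¬ ∃ P : Fin q → Finset (ℝ × ℝ),
        Finset.univ.biUnion P = R ∪ B ∧
        (∀ i j, i ≠ j →
          Disjoint (convexHull ℝ (P i : Set (ℝ × ℝ))) (convexHull ℝ (P j : Set (ℝ × ℝ)))) ∧
        (∀ i, (P i ∩ R).card = a * ns i ∧ (P i ∩ B).card = b * ns i) :=
  Pool.Agent.P.MP_3fef46_co.H85.bad a b q M ns I hI hM hred hblue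

end Pool.Agent.Results.MP_3fef46_co.BoundedParts
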